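import Mathlib
import Pool.Agent.V8H25.SP.Def2

/-!
# The representation ring of `GL(m)`
-/

set_option autoImplicit false

namespace Pool.Agent.V8H61.SP

open Finset Pool.Agent.V8H25.SP

variable {m : ℕ}

/-- polynomials as Laurent polynomials -/
noncomputable def Ph (m : ℕ) : MvPolynomial (Fin m) ℤ →ₐ[ℤ] AddMonoidAlgebra ℤ (Fin m → ℤ) :=
  MvPolynomial.aeval fun i => AddMonoidAlgebra.single (Pi.single i 1) 1

theorem prod_sgl {ι : Type} (s : Finset ι) (v : ι → (Fin m → ℤ)) :
    ∏ i ∈ s, (AddMonoidAlgebra.single (v i) 1 : AddMonoidAlgebra ℤ (Fin m → ℤ)) =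
      AddMonoidAlgebra.single (∑ i ∈ s, v i) 1 := by
  classical
  induction s using Finset.induction_on with
  | empty => rfl
  | insert a s ha ih =>
    rw [Finset.prod_insert ha, Finset.sum_insert ha, ih, AddMonoidAlgebra.single_mul_single, mul_one]

theorem sum_sgl (s : Finset (Fin m)) :
    (∑ i ∈ s, Pi.single i (1 : ℤ) : Fin m → ℤ) = fun i => if i ∈ s then 1 else 0 := by
  classical
  funext j
  rw [Finset.sum_apply]
  simp only [Pi.single_apply]
  rw [Finset.sum_ite_eq]

theorem Ph_monomial (e : Fin m →₀ ℕ) (c : ℤ) :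
    Ph m (MvPolynomial.monomial e c) = AddMonoidAlgebra.single (fun i => (e i : ℤ)) c := by
  classical
  unfold Ph
  rw [MvPolynomial.aeval_monomial, Finsupp.prod_fintype _ _ (fun i => pow_zero _)]
  simp only [AddMonoidAlgebra.single_pow, one_pow]
  rw [prod_sgl, ← Algebra.smul_def, AddMonoidAlgebra.smul_single, smul_eq_mul, mul_one]
  congr 1
  funext j
  rw [Finset.sum_apply]
  simp only [Pi.smul_apply, Pi.single_apply, smul_ite, nsmul_eq_mul, mul_one, smul_zero]
  rw [Finset.sum_ite_eq, if_pos (mem_univ _)]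

theorem Ph_esymm (j : ℕ) : Ph m (MvPolynomial.esymm (Fin m) ℤ j) = ee m j := by
  classical
  unfold MvPolynomial.esymm ee
  rw [map_sum]
  refine Finset.sum_congr rfl fun t _ => ?_
  rw [map_prod]
  have h : ∀ i, Ph m (MvPolynomial.X i) = AddMonoidAlgebra.single (Pi.single i 1) 1 := fun i => by
    unfold Ph
    rw [MvPolynomial.aeval_X]
  simp only [h]
  rw [prod_sgl, sum_sgl]

/-- the monomials -/
noncomputable def gmon (m : ℕ) (x : ℤ × List ℕ) : AddMonoidAlgebra ℤ (Fin m → ℤ) :=
  dt m x.1 * ((x.2).map (ee m)).prod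

theorem dt_mul (a b : ℤ) : dt m a * dt m b = dt m (a + b) := by
  unfold dt
  rw [AddMonoidAlgebra.single_mul_single, mul_one]
  rfl

theorem dt_zero : dt m 0 = 1 := rfl

/-- nonnegative exponents -/
theorem exists_poly (g : AddMonoidAlgebra ℤ (Fin m → ℤ)) (hg : IsSym g)
    (hn : ∀ l, g.coeff l ≠ 0 → ∀ i, 0 ≤ l i) :
    ∃ P : MvPolynomial (Fin m) ℤ, P.IsSymmetric ∧ Ph m P = g := by
  classical
  obtain ⟨tn, htn⟩ : ∃ tn : (Fin m → ℤ) → (Fin m →₀ ℕ),
      tn = fun l => Finsupp.equivFunOnFinite.symm fun i => (l i).toNat := ⟨_, rfl⟩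
  refine ⟨∑ l ∈ g.coeff.support, MvPolynomial.monomial (tn l) (g.coeff l), ?_, ?_⟩
  · intro τ
    rw [map_sum]
    simp only [MvPolynomial.rename_monomial]
    refine Finset.sum_bij' (fun l _ => l ∘ τ.symm) (fun l _ => l ∘ τ) ?_ ?_ ?_ ?_ ?_
    · intro l hl
      rw [Finsupp.mem_support_iff] at hl ⊢
      rwa [hg τ.symm l]
    · intro l hl
      rw [Finsupp.mem_support_iff] at hl ⊢
      rwa [hg τ l]
    · intro l _
      funext i
      simp
    · intro l _
      funext i
      simp
    · intro l _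
      have h0 : Finsupp.mapDomain τ (tn l) = tn (l ∘ τ.symm) := by
        refine Finsupp.ext fun i => ?_
        have h1 := Finsupp.mapDomain_equiv_apply (f := τ) (tn l) i
        rw [h1, htn]
        rfl
      rw [hg τ.symm l, h0]
  · rw [map_sum]
    simp only [Ph_monomial]
    conv_rhs => rw [← AddMonoidAlgebra.sum_coeff_single g]
    unfold Finsupp.sum
    refine Finset.sum_congr rfl fun l hl => ?_
    congr 1
    funext i
    rw [htn]
    exact Int.toNat_of_nonneg (hn l (Finsupp.mem_support_iff.1 hl) i)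

theorem mem_gspan (f : AddMonoidAlgebra ℤ (Fin m → ℤ)) (hf : IsSym f) :
    f ∈ Submodule.span ℤ (Set.range (gmon m)) := by
  classical
  obtain ⟨N, hN⟩ : ∃ N : ℕ, ∀ l, f.coeff l ≠ 0 → ∀ i, 0 ≤ (N : ℤ) + l i := by
    refine ⟨∑ l ∈ f.coeff.support, ∑ i, (l i).natAbs, fun l hl i => ?_⟩
    have h1 : ∑ i, (l i).natAbs ≤ ∑ l ∈ f.coeff.support, ∑ i, (l i).natAbs :=
      Finset.single_le_sum (f := fun l : Fin m → ℤ => ∑ i, (l i).natAbs) (fun _ _ => Nat.zero_le _)
        (Finsupp.mem_support_iff.2 hl)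
    have h2 : (l i).natAbs ≤ ∑ i, (l i).natAbs :=
      Finset.single_le_sum (f := fun i => (l i).natAbs) (fun _ _ => Nat.zero_le _) (mem_univ i)
    omega
  obtain ⟨g, hg⟩ : ∃ g, g = dt m N * f := ⟨_, rfl⟩
  have hgc : ∀ l, g.coeff l = f.coeff (fun i => -(N : ℤ) + l i) := by
    intro l
    rw [hg]
    unfold dt
    rw [AddMonoidAlgebra.coeff_single_mul_apply, one_mul]
    rfl
  have hgs : IsSym g := by
    intro τ l
    rw [hgc, hgc]
    exact hf τ (fun i => -(N : ℤ) + l i)
  obtain ⟨P, hP, hPg⟩ := exists_poly g hgs (by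
    intro l hl i
    rw [hgc] at hl
    have := hN _ hl i
    omega)
  obtain ⟨Q, hQ⟩ := MvPolynomial.esymmAlgHom_surjective (σ := Fin m) ℤ (n := m) (by simp) ⟨P, hP⟩
  have hQ2 : P = MvPolynomial.aeval (fun i : Fin m => MvPolynomial.esymm (Fin m) ℤ (i + 1)) Q := by
    have := congrArg Subtype.val hQ
    rw [MvPolynomial.esymmAlgHom_apply] at this
    exact this.symm
  have hf2 : f = dt m (-(N : ℤ)) * g := by
    rw [hg, ← mul_assoc, dt_mul, neg_add_cancel, dt_zero, one_mul]
  have key : ∀ Q : MvPolynomial (Fin m) ℤ, dt m (-(N : ℤ)) * Ph m (MvPolynomial.aeval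
      (fun i : Fin m => MvPolynomial.esymm (Fin m) ℤ (i + 1)) Q) ∈
        Submodule.span ℤ (Set.range (gmon m)) := by
    intro Q
    have e : Ph m (MvPolynomial.aeval (fun i : Fin m => MvPolynomial.esymm (Fin m) ℤ (i + 1)) Q) =
        MvPolynomial.aeval (fun i : Fin m => ee m (i + 1)) Q := by
      rw [← AlgHom.comp_apply, MvPolynomial.comp_aeval]
      simp only [Ph_esymm]
    rw [e, Q.as_sum, map_sum, Finset.mul_sum]
    refine Submodule.sum_mem _ fun q _ => ?_
    rw [MvPolynomial.aeval_monomial, Finsupp.prod_fintype _ _ (fun i => pow_zero _),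
      ← Algebra.smul_def, mul_smul_comm]
    refine Submodule.smul_mem _ _ (Submodule.subset_span ⟨(-(N : ℤ),
      (List.finRange m).flatMap fun (i : Fin m) => List.replicate (q i) ((i : ℕ) + 1)), ?_⟩)
    unfold gmon
    congr 1
    have h1 : ∀ l : List (Fin m),
        ((l.flatMap fun (i : Fin m) => List.replicate (q i) ((i : ℕ) + 1)).map (ee m)).prod =
          (l.map fun (i : Fin m) => ee m ((i : ℕ) + 1) ^ q i).prod := by
      intro l
      induction l with
      | nil => rfl
      | cons i l ih =>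
        rw [List.flatMap_cons, List.map_append, List.prod_append, ih, List.map_replicate,
          List.prod_replicate, List.map_cons, List.prod_cons]
    rw [h1, ← List.ofFn_eq_map, List.prod_ofFn]
  rw [hf2, ← hPg, hQ2]
  exact key Q

/-- **The representation ring of `GL(m)`.** -/
theorem stmGL : StmGL := by
  classical
  intro m f hf
  have h := mem_gspan f hf
  rw [Finsupp.mem_span_range_iff_exists_finsupp] at h
  obtain ⟨c, hc⟩ := h
  refine ⟨c.support.card, fun k => ((c.support.equivFin.symm k : c.support) : ℤ × List ℕ).1,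
    fun k => ((c.support.equivFin.symm k : c.support) : ℤ × List ℕ).2,
    fun k => c (c.support.equivFin.symm k : c.support), ?_⟩
  rw [← hc, Finsupp.sum, ← Finset.sum_coe_sort, ← Equiv.sum_comp c.support.equivFin.symm]
  rfl

end Pool.Agent.V8H61.SP
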