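import Pool.Agent.V8H61.SP.Top

/-!
# The generators: leading terms and invariance
-/

set_option autoImplicit false

namespace Pool.Agent.V8H61.SP

open Finset Pool.Agent.V8H32.SP

variable {n : ℕ}

/-! ### the similitude character -/

theorem sim_top (c : ℤ) : Top (sim n c) (2 * c, fun _ => c) := by
  unfold Top sim
  rw [sub_self]
  exact Low.zero _

theorem sim_isW (c : ℤ) : IsW (sim n c) := by
  rw [isW_iff]
  unfold sim
  refine ⟨fun σ => ?_, fun i => ?_⟩
  · rw [AddMonoidAlgebra.domCongr_single]
    rfl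
  · rw [AddMonoidAlgebra.domCongr_single]
    congr 1
    refine Prod.ext rfl (funext fun j => ?_)
    show Function.update (fun _ => c) i (2 * c - c) j = c
    by_cases h : j = i
    · subst h
      rw [Function.update_self]
      ring
    · rw [Function.update_of_ne h]

/-! ### the spin representation -/

theorem spin_top : Top (spin n) (1, fun _ => 1) := by
  classical
  unfold Top spin
  rw [← Finset.add_sum_erase Finset.univ _ (Finset.mem_univ (Finset.univ : Finset (Fin n)))]
  have e : (fun i : Fin n => if i ∈ (Finset.univ : Finset (Fin n)) then (1 : ℤ) else 0) =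
      fun _ => 1 := by
    funext i
    exact if_pos (Finset.mem_univ i)
  rw [e, add_sub_cancel_left]
  refine Low.sum _ _ fun I hI => Low.single ?_ 1
  have hne := Finset.ne_of_mem_erase hI
  obtain ⟨i, hi⟩ : ∃ i, i ∉ I := by
    by_contra hcon
    push Not at hcon
    exact hne (Finset.eq_univ_of_forall hcon)
  unfold ht
  refine Finset.sum_lt_sum (fun j _ => ?_) ⟨i, Finset.mem_univ i, ?_⟩
  · have hj : (0 : ℤ) ≤ (n : ℤ) - (j : ℕ) := by have := j.2; omega
    refine mul_le_mul_of_nonneg_left ?_ hj
    simp only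
    split_ifs <;> norm_num
  · have hj : (0 : ℤ) < (n : ℤ) - (i : ℕ) := by have := i.2; omega
    refine mul_lt_mul_of_pos_left ?_ hj
    simp only
    rw [if_neg hi]
    norm_num

theorem spin_isW : IsW (spin n) := by
  classical
  rw [isW_iff]
  unfold spin
  refine ⟨fun σ => ?_, fun i => ?_⟩
  · rw [map_sum, ← Equiv.sum_comp (Equiv.finsetCongr σ) (fun I : Finset (Fin n) =>
      AddMonoidAlgebra.domCongr ℤ ℤ (wP σ)
        (AddMonoidAlgebra.single (1, fun i => if i ∈ I then (1 : ℤ) else 0) (1 : ℤ)))]
    refine Finset.sum_congr rfl fun I _ => ?_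
    rw [AddMonoidAlgebra.domCongr_single]
    congr 1
    refine Prod.ext rfl (funext fun j => ?_)
    show (if σ j ∈ (Equiv.finsetCongr σ) I then (1 : ℤ) else 0) = if j ∈ I then 1 else 0
    refine if_congr ?_ rfl rfl
    rw [Equiv.finsetCongr_apply, Finset.mem_map_equiv, Equiv.symm_apply_apply]
  · have hinv : Function.Involutive (fun I : Finset (Fin n) => symmDiff I {i}) := by
      intro I
      exact symmDiff_symmDiff_cancel_right _ _
    rw [map_sum, ← Equiv.sum_comp hinv.toPerm (fun I : Finset (Fin n) =>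
      AddMonoidAlgebra.domCongr ℤ ℤ (wI i)
        (AddMonoidAlgebra.single (1, fun i => if i ∈ I then (1 : ℤ) else 0) (1 : ℤ)))]
    refine Finset.sum_congr rfl fun I _ => ?_
    rw [AddMonoidAlgebra.domCongr_single]
    congr 1
    refine Prod.ext rfl (funext fun j => ?_)
    show Function.update (fun k => if k ∈ symmDiff I {i} then (1 : ℤ) else 0) i
      (1 - if i ∈ symmDiff I {i} then (1 : ℤ) else 0) j = if j ∈ I then 1 else 0
    by_cases h : j = i
    · subst h
      rw [Function.update_self]
      by_cases h1 : j ∈ I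
      · rw [if_pos h1, if_neg, sub_zero]
        rw [Finset.mem_symmDiff, Finset.mem_singleton]
        tauto
      · rw [if_neg h1, if_pos, sub_self]
        rw [Finset.mem_symmDiff, Finset.mem_singleton]
        tauto
    · rw [Function.update_of_ne h]
      refine if_congr ?_ rfl rfl
      rw [Finset.mem_symmDiff, Finset.mem_singleton]
      tauto

/-! ### exterior powers -/

theorem ht_zero_fst (w : Fin n → ℤ) : ht ((0, w) : Wt n) =
    ∑ i : Fin n, ((n : ℤ) - (i : ℕ)) * (2 * w i) := by
  unfold ht
  simp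

theorem ht_e (i : Fin n) : ht (stw (Sum.inr (Sum.inl i)) : Wt n) = 2 * ((n : ℤ) - (i : ℕ)) := by
  show ht ((0, Pi.single i 1) : Wt n) = _
  rw [ht_zero_fst, Finset.sum_eq_single i]
  · rw [Pi.single_eq_same]
    ring
  · intro j _ hj
    rw [Pi.single_eq_of_ne hj]
    ring
  · intro h
    exact absurd (Finset.mem_univ _) h

theorem ht_f (i : Fin n) : ht (stw (Sum.inr (Sum.inr i)) : Wt n) = -(2 * ((n : ℤ) - (i : ℕ))) := by
  show ht ((0, -Pi.single i 1) : Wt n) = _
  rw [ht_zero_fst, Finset.sum_eq_single i]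
  · rw [Pi.neg_apply, Pi.single_eq_same]
    ring
  · intro j _ hj
    rw [Pi.neg_apply, Pi.single_eq_of_ne hj]
    ring
  · intro h
    exact absurd (Finset.mem_univ _) h

theorem ht_o : ht (stw (Sum.inl ()) : Wt n) = 0 := ht_zero

/-- sets with the maximal sum -/
theorem sum_lt_top {α : Type} [DecidableEq α] (f : α → ℤ) (I I₀ : Finset α)
    (h : ∀ x ∈ I₀, ∀ y, y ∉ I₀ → f y < f x) (hc : I.card = I₀.card) (hne : I ≠ I₀) :
    ∑ x ∈ I, f x < ∑ x ∈ I₀, f x := by
  have c1 := Finset.card_sdiff_add_card_inter I I₀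
  have c2 := Finset.card_sdiff_add_card_inter I₀ I
  rw [Finset.inter_comm] at c2
  have hcard : (I \ I₀).card = (I₀ \ I).card := by omega
  have hne1 : (I₀ \ I).Nonempty := by
    rw [Finset.nonempty_iff_ne_empty]
    intro h0
    apply hne
    rw [Finset.sdiff_eq_empty_iff_subset] at h0
    exact (Finset.eq_of_subset_of_card_le h0 hc.le).symm
  obtain ⟨x, hx, hmin⟩ := Finset.exists_min_image (I₀ \ I) f hne1
  have h1 : (I₀ \ I).card • f x ≤ ∑ y ∈ I₀ \ I, f y := Finset.card_nsmul_le_sum _ _ _ hmin
  have h2 : ∑ y ∈ I \ I₀, f y < (I \ I₀).card • f x := by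
    rw [← Finset.sum_const]
    refine Finset.sum_lt_sum_of_nonempty ?_ ?_
    · rw [← Finset.card_pos, hcard, Finset.card_pos]
      exact hne1
    · intro y hy
      exact h x (Finset.mem_sdiff.1 hx).1 y (Finset.mem_sdiff.1 hy).2
  rw [← Finset.sum_inter_add_sum_sdiff I I₀ f, ← Finset.sum_inter_add_sum_sdiff I₀ I f,
    Finset.inter_comm I₀ I]
  rw [hcard] at h2
  linarith

theorem ext_top (j : ℕ) (hj : j ≤ n) :
    Top (ext n j) (0, fun i => if (i : ℕ) < j then 1 else 0) := by
  classical
  obtain ⟨A, hA⟩ : ∃ A : Finset (Fin n), A = univ.filter fun i : Fin n => (i : ℕ) < j := ⟨_, rfl⟩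
  obtain ⟨I₀, hI₀⟩ : ∃ I₀ : Finset (Unit ⊕ Fin n ⊕ Fin n),
    I₀ = A.map ⟨fun i => Sum.inr (Sum.inl i), fun a b h => Sum.inl_injective (Sum.inr_injective h)⟩ :=
      ⟨_, rfl⟩
  have hcard : I₀.card = j := by
    rw [hI₀, Finset.card_map, hA]
    rw [Fin.card_filter_val_lt, min_eq_right hj]
  have hsum : ∑ x ∈ I₀, stw x = ((0, fun i => if (i : ℕ) < j then 1 else 0) : Wt n) := by
    rw [hI₀, Finset.sum_map]
    show ∑ i ∈ A, ((0, Pi.single i 1) : Wt n) = _
    refine Prod.ext ?_ (funext fun k => ?_)
    · rw [Prod.fst_sum]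
      exact Finset.sum_const_zero
    · rw [Prod.snd_sum, Finset.sum_apply]
      show ∑ i ∈ A, (Pi.single i 1 : Fin n → ℤ) k = if (k : ℕ) < j then 1 else 0
      rw [Finset.sum_pi_single]
      rw [hA]
      simp
  have hmem : I₀ ∈ (Finset.univ : Finset (Unit ⊕ Fin n ⊕ Fin n)).powersetCard j :=
    Finset.mem_powersetCard.2 ⟨Finset.subset_univ _, hcard⟩
  unfold Top Pool.Agent.V8H32.SP.ext
  rw [← Finset.add_sum_erase _ _ hmem, hsum, add_sub_cancel_left]
  refine Low.sum _ _ fun I hI => Low.single ?_ 1
  have hne := Finset.ne_of_mem_erase hI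
  have hIc := (Finset.mem_powersetCard.1 (Finset.mem_of_mem_erase hI)).2
  rw [← hsum, ht_sum, ht_sum]
  refine sum_lt_top (fun x => ht (stw x : Wt n)) I I₀ ?_ (hIc.trans hcard.symm) hne
  intro x hx y hy
  rw [hI₀, Finset.mem_map] at hx
  obtain ⟨i, hi, rfl⟩ := hx
  rw [hA, Finset.mem_filter] at hi
  simp only [Function.Embedding.coeFn_mk]
  rw [ht_e]
  have hi2 := i.2
  rcases y with ⟨⟩ | k | k
  · rw [ht_o]
    omega
  · rw [ht_e]
    have hk : ¬ (k : ℕ) < j := by
      intro hk
      apply hy
      rw [hI₀, Finset.mem_map]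
      refine ⟨k, ?_, rfl⟩
      rw [hA, Finset.mem_filter]
      exact ⟨Finset.mem_univ _, hk⟩
    have := hi.2
    omega
  · rw [ht_f]
    have hk := k.2
    omega

/-- invariance of the exterior powers -/
theorem ext_inv (j : ℕ) (φ : Wt n ≃+ Wt n) (τ : Equiv.Perm (Unit ⊕ Fin n ⊕ Fin n))
    (h : ∀ x, φ (stw x) = stw (τ x)) :
    AddMonoidAlgebra.domCongr ℤ ℤ φ (ext n j) = ext n j := by
  classical
  unfold Pool.Agent.V8H32.SP.ext
  rw [map_sum]
  refine Finset.sum_equiv (Equiv.finsetCongr τ) (fun I => ?_) (fun I _ => ?_)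
  · rw [Finset.mem_powersetCard_univ, Finset.mem_powersetCard_univ, Equiv.finsetCongr_apply,
      Finset.card_map]
  · rw [AddMonoidAlgebra.domCongr_single]
    congr 1
    rw [map_sum, Equiv.finsetCongr_apply, Finset.sum_map]
    exact Finset.sum_congr rfl fun x _ => h x

theorem ext_isW (j : ℕ) : IsW (ext n j) := by
  classical
  rw [isW_iff]
  refine ⟨fun σ => ?_, fun i => ?_⟩
  · refine ext_inv j (wP σ) (Equiv.sumCongr (Equiv.refl _) (Equiv.sumCongr σ.symm σ.symm)) ?_
    have key : ∀ k : Fin n, (Pi.single k 1 : Fin n → ℤ) ∘ σ = Pi.single (σ.symm k) 1 := by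
      intro k
      funext l
      rw [Function.comp_apply, Pi.single_apply, Pi.single_apply]
      refine if_congr ?_ rfl rfl
      exact (Equiv.eq_symm_apply σ).symm
    intro x
    rcases x with ⟨⟩ | k | k
    · rfl
    · exact Prod.ext rfl (key k)
    · refine Prod.ext rfl ?_
      show (-Pi.single k 1 : Fin n → ℤ) ∘ σ = -Pi.single (σ.symm k) 1
      rw [← key k]
      rfl
  · obtain ⟨f, hf⟩ : ∃ f : Unit ⊕ Fin n ⊕ Fin n → Unit ⊕ Fin n ⊕ Fin n, f = fun x => match x with
      | Sum.inl u => Sum.inl u
      | Sum.inr (Sum.inl k) => if k = i then Sum.inr (Sum.inr k) else Sum.inr (Sum.inl k)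
      | Sum.inr (Sum.inr k) => if k = i then Sum.inr (Sum.inl k) else Sum.inr (Sum.inr k) := ⟨_, rfl⟩
    have f0 : ∀ u, f (Sum.inl u) = Sum.inl u := fun u => by rw [hf]
    have f1 : ∀ k, f (Sum.inr (Sum.inl k)) =
        if k = i then Sum.inr (Sum.inr k) else Sum.inr (Sum.inl k) := fun k => by rw [hf]
    have f2 : ∀ k, f (Sum.inr (Sum.inr k)) =
        if k = i then Sum.inr (Sum.inl k) else Sum.inr (Sum.inr k) := fun k => by rw [hf]
    have hinv : Function.Involutive f := by
      intro x
      rcases x with u | k | k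
      · rw [f0, f0]
      · rw [f1]
        by_cases h : k = i
        · rw [if_pos h, f2, if_pos h]
        · rw [if_neg h, f1, if_neg h]
      · rw [f2]
        by_cases h : k = i
        · rw [if_pos h, f1, if_pos h]
        · rw [if_neg h, f2, if_neg h]
    refine ext_inv j (wI i) hinv.toPerm ?_
    intro x
    rcases x with ⟨⟩ | k | k
    · show wI i (stw (Sum.inl ())) = stw (f (Sum.inl ()))
      rw [f0]
      refine Prod.ext rfl (funext fun l => ?_)
      show Function.update (0 : Fin n → ℤ) i (0 - (0 : Fin n → ℤ) i) l = 0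
      by_cases h : l = i
      · subst h
        rw [Function.update_self]
        simp
      · rw [Function.update_of_ne h]
        rfl
    · show wI i (stw (Sum.inr (Sum.inl k))) = stw (f (Sum.inr (Sum.inl k)))
      rw [f1]
      by_cases h : k = i
      · rw [if_pos h]
        subst h
        refine Prod.ext rfl (funext fun l => ?_)
        show Function.update (Pi.single k 1 : Fin n → ℤ) k (0 - (Pi.single k 1 : Fin n → ℤ) k) l =
          (-Pi.single k 1 : Fin n → ℤ) l
        by_cases h : l = k
        · subst h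
          rw [Function.update_self]
          simp
        · rw [Function.update_of_ne h]
          simp [h]
      · rw [if_neg h]
        refine Prod.ext rfl (funext fun l => ?_)
        show Function.update (Pi.single k 1 : Fin n → ℤ) i (0 - (Pi.single k 1 : Fin n → ℤ) i) l =
          (Pi.single k 1 : Fin n → ℤ) l
        by_cases h' : l = i
        · subst h'
          rw [Function.update_self, Pi.single_eq_of_ne (Ne.symm h)]
          simp
        · rw [Function.update_of_ne h']
    · show wI i (stw (Sum.inr (Sum.inr k))) = stw (f (Sum.inr (Sum.inr k)))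
      rw [f2]
      by_cases h : k = i
      · rw [if_pos h]
        subst h
        refine Prod.ext rfl (funext fun l => ?_)
        show Function.update (-Pi.single k 1 : Fin n → ℤ) k (0 - (-Pi.single k 1 : Fin n → ℤ) k) l =
          (Pi.single k 1 : Fin n → ℤ) l
        by_cases h : l = k
        · subst h
          rw [Function.update_self]
          simp
        · rw [Function.update_of_ne h]
          simp [h]
      · rw [if_neg h]
        refine Prod.ext rfl (funext fun l => ?_)
        show Function.update (-Pi.single k 1 : Fin n → ℤ) i (0 - (-Pi.single k 1 : Fin n → ℤ) i) l =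
          (-Pi.single k 1 : Fin n → ℤ) l
        by_cases h' : l = i
        · subst h'
          rw [Function.update_self, Pi.neg_apply, Pi.single_eq_of_ne (Ne.symm h)]
          simp
        · rw [Function.update_of_ne h']

/-! ### monomials -/

theorem mono_ext : ∀ (N : ℕ) (y : Fin n → ℕ), ∑ i, y i = N → Antitone y →
    ∃ J : List ℕ, Top ((J.map (ext n)).prod) ((0, fun i => (y i : ℤ)) : Wt n) := by
  classical
  intro N
  induction N using Nat.strong_induction_on with
  | _ N ih =>
    intro y hy hanti
    by_cases h0 : ∀ i, y i = 0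
    · refine ⟨[], ?_⟩
      have e : ((0, fun i => (y i : ℤ)) : Wt n) = 0 := by
        refine Prod.ext rfl (funext fun i => ?_)
        show (y i : ℤ) = 0
        rw [h0 i, Nat.cast_zero]
      rw [e]
      exact Top.one
    · push Not at h0
      obtain ⟨A, hA⟩ : ∃ A : Finset (Fin n), A = univ.filter fun i => 0 < y i := ⟨_, rfl⟩
      have hne : A.Nonempty := by
        obtain ⟨i, hi⟩ := h0
        exact ⟨i, by rw [hA, Finset.mem_filter]; exact ⟨Finset.mem_univ _, Nat.pos_of_ne_zero hi⟩⟩
      obtain ⟨k, hk⟩ : ∃ k, k = A.max' hne := ⟨_, rfl⟩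
      have hkA : 0 < y k := by
        have := A.max'_mem hne
        rw [← hk, hA, Finset.mem_filter] at this
        exact this.2
      have hle : ∀ i, i ≤ k → 0 < y i := fun i hi => lt_of_lt_of_le hkA (hanti hi)
      have hgt : ∀ i, k < i → y i = 0 := by
        intro i hi
        by_contra hcon
        have h1 : i ∈ A := by
          rw [hA, Finset.mem_filter]
          exact ⟨Finset.mem_univ _, Nat.pos_of_ne_zero hcon⟩
        have h2 := A.le_max' i h1
        rw [← hk] at h2
        exact absurd hi (not_lt.2 h2)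
      obtain ⟨y', hy'⟩ : ∃ y' : Fin n → ℕ, y' = fun i => y i - if i ≤ k then 1 else 0 := ⟨_, rfl⟩
      have hy'1 : ∀ i, i ≤ k → y' i = y i - 1 := fun i hi => by rw [hy']; simp [hi]
      have hy'2 : ∀ i, k < i → y' i = 0 := fun i hi => by rw [hy']; simp [hgt i hi]
      have hanti' : Antitone y' := by
        intro i j hij
        rcases le_or_gt j k with hj | hj
        · rw [hy'1 j hj, hy'1 i (hij.trans hj)]
          exact Nat.sub_le_sub_right (hanti hij) 1
        · rw [hy'2 j hj]
          exact Nat.zero_le _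
      have hlt : ∑ i, y' i < N := by
        rw [← hy]
        refine Finset.sum_lt_sum (fun i _ => ?_) ⟨k, Finset.mem_univ k, ?_⟩
        · rw [hy']
          exact Nat.sub_le _ _
        · rw [hy'1 k le_rfl]
          omega
      obtain ⟨J, hJ⟩ := ih _ hlt y' rfl hanti'
      refine ⟨((k : ℕ) + 1) :: J, ?_⟩
      rw [List.map_cons, List.prod_cons]
      have e : ((0, fun i => (y i : ℤ)) : Wt n) =
          ((0, fun i : Fin n => if (i : ℕ) < (k : ℕ) + 1 then (1 : ℤ) else 0) : Wt n) +
            ((0, fun i => (y' i : ℤ)) : Wt n) := by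
        refine Prod.ext rfl (funext fun i => ?_)
        show (y i : ℤ) = (if (i : ℕ) < (k : ℕ) + 1 then 1 else 0) + (y' i : ℤ)
        rcases le_or_gt i k with hi | hi
        · have h1 : (i : ℕ) ≤ k := hi
          have h2 := hle i hi
          rw [if_pos (by omega), hy'1 i hi]
          omega
        · have h1 : (k : ℕ) < i := hi
          rw [if_neg (by omega), hy'2 i hi, hgt i hi]
          simp
      rw [e]
      exact (ext_top _ (by have := k.2; omega)).mul hJ

/-- the monomials -/
noncomputable def mon (n : ℕ) (x : ℤ × Bool × List ℕ) : Rep n :=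
  sim n x.1 * (if x.2.1 then spin n else 1) * ((x.2.2).map (ext n)).prod

theorem mon_isW (x : ℤ × Bool × List ℕ) : IsW (mon n x) := by
  unfold mon
  refine isW_mul (isW_mul (sim_isW _) ?_) (isW_list _ ?_)
  · split_ifs
    · exact spin_isW
    · exact isW_one
  · intro m hm
    rw [List.mem_map] at hm
    obtain ⟨j, -, rfl⟩ := hm
    exact ext_isW j

theorem exists_mon {w : Wt n} (h : Dom w) : ∃ x, Top (mon n x) w := by
  obtain ⟨c, ε, hε, hw⟩ : ∃ c ε : ℤ, (ε = 0 ∨ ε = 1) ∧ w.1 = 2 * c + ε :=
    ⟨w.1 / 2, w.1 % 2, by omega, by omega⟩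
  have hpos : ∀ i, 0 ≤ w.2 i - c - ε := by
    intro i
    have := h.1 i
    omega
  obtain ⟨y, hy⟩ : ∃ y : Fin n → ℕ, ∀ i, (y i : ℤ) = w.2 i - c - ε :=
    ⟨fun i => (w.2 i - c - ε).toNat, fun i => Int.toNat_of_nonneg (hpos i)⟩
  have hanti : Antitone y := by
    intro i j hij
    rcases eq_or_lt_of_le hij with h1 | h1
    · rw [h1]
    · have h2 := h.2 i j h1
      have h3 := hy i
      have h4 := hy j
      omega
  obtain ⟨J, hJ⟩ := mono_ext _ y rfl hanti
  rcases hε with hε | hε
  · refine ⟨(c, false, J), ?_⟩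
    unfold mon
    have e : w = (2 * c, fun _ => c) + 0 + (0, fun i => (y i : ℤ)) := by
      refine Prod.ext ?_ (funext fun i => ?_)
      · show w.1 = 2 * c + 0 + 0
        omega
      · show w.2 i = c + 0 + (y i : ℤ)
        have := hy i
        omega
    rw [e]
    refine ((sim_top c).mul ?_).mul hJ
    simp only [Bool.false_eq_true, if_false]
    exact Top.one
  · refine ⟨(c, true, J), ?_⟩
    unfold mon
    have e : w = (2 * c, fun _ => c) + (1, fun _ => 1) + (0, fun i => (y i : ℤ)) := by
      refine Prod.ext ?_ (funext fun i => ?_)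
      · show w.1 = 2 * c + 1 + 0
        omega
      · show w.2 i = c + 1 + (y i : ℤ)
        have := hy i
        omega
    rw [e]
    refine ((sim_top c).mul ?_).mul hJ
    simp only [if_true]
    exact spin_top

/-- the span of the monomials -/
theorem mem_span : ∀ (N : ℕ) (m : Rep n), IsW m → Low (N : ℤ) m →
    m ∈ Submodule.span ℤ (Set.range (mon n)) := by
  classical
  intro N
  induction N with
  | zero =>
    intro m hm hl
    rw [zero_of_low hm (by exact_mod_cast hl)]
    exact Submodule.zero_mem _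
  | succ N ih =>
    intro m hm hl
    have hle : Le (N : ℤ) m := by
      intro w hw
      have := hl w hw
      push_cast at this
      omega
    have hex : ∀ w : Wt n, ∃ x, Dom w → Top (mon n x) w := by
      intro w
      by_cases h : Dom w
      · obtain ⟨x, hx⟩ := exists_mon h
        exact ⟨x, fun _ => hx⟩
      · exact ⟨(0, false, []), fun h' => absurd h' h⟩
    choose g hg using hex
    obtain ⟨D, hD⟩ : ∃ D : Finset (Wt n), D = m.coeff.support.filter fun w => ht w = N := ⟨_, rfl⟩
    have hDm : ∀ w, w ∈ D ↔ m.coeff w ≠ 0 ∧ ht w = N := by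
      intro w
      rw [hD, Finset.mem_filter, Finsupp.mem_support_iff]
    have hDd : ∀ w ∈ D, Dom w := fun w hw => dom_of_max hm hle ((hDm w).1 hw).1 ((hDm w).1 hw).2
    obtain ⟨q, hq⟩ : ∃ q : Rep n, q = ∑ w ∈ D, m.coeff w • mon n (g w) := ⟨_, rfl⟩
    have hqs : q ∈ Submodule.span ℤ (Set.range (mon n)) := by
      rw [hq]
      exact Submodule.sum_mem _ fun w _ => Submodule.smul_mem _ _
        (Submodule.subset_span ⟨g w, rfl⟩)
    have hqW : IsW q := by
      rw [hq]
      exact isW_sum _ _ fun w _ => isW_smul (mon_isW _) _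
    have hlow : Low (N : ℤ) (m - q) := by
      have e : m - q = (m - ∑ w ∈ D, m.coeff w • (AddMonoidAlgebra.single w 1 : Rep n)) +
          (-1 : ℤ) • ∑ w ∈ D, m.coeff w • (mon n (g w) - AddMonoidAlgebra.single w 1) := by
        rw [hq]
        simp only [smul_sub, Finset.sum_sub_distrib]
        rw [neg_one_smul]
        abel
      rw [e]
      refine Low.add ?_ (Low.smul (Low.sum _ _ fun w hw => Low.smul ?_ _) _)
      · intro w hw
        have e2 : (∑ w' ∈ D, m.coeff w' • (AddMonoidAlgebra.single w' 1 : Rep n)).coeff w =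
            if w ∈ D then m.coeff w else 0 := by
          rw [AddMonoidAlgebra.coeff_sum, Finsupp.finsetSum_apply]
          simp only [AddMonoidAlgebra.coeff_smul_apply, AddMonoidAlgebra.coeff_single,
            Finsupp.single_apply, smul_eq_mul, mul_ite, mul_one, mul_zero]
          rw [Finset.sum_ite_eq']
        rw [AddMonoidAlgebra.coeff_sub, Finsupp.sub_apply, e2] at hw
        by_cases hwD : w ∈ D
        · rw [if_pos hwD, sub_self] at hw
          exact absurd rfl hw
        · rw [if_neg hwD, sub_zero] at hw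
          refine lt_of_le_of_ne (hle w hw) fun h => hwD ((hDm w).2 ⟨hw, h⟩)
      · have := hg w (hDd w hw)
        unfold Top at this
        rw [((hDm w).1 hw).2] at this
        exact this
    have h1 := ih (m - q) (isW_sub hm hqW) hlow
    have h2 : m = (m - q) + q := by abel
    rw [h2]
    exact Submodule.add_mem _ h1 hqs

/-- **The representation ring of `GSpin(2n+1)`.** -/
theorem stmRing : StmRing := by
  classical
  intro n m hm
  obtain ⟨N, hN⟩ : ∃ N : ℕ, Low (N : ℤ) m := by
    refine ⟨∑ w ∈ m.coeff.support, ((ht w).natAbs + 1), fun w hw => ?_⟩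
    have h1 : (ht w).natAbs + 1 ≤ ∑ w ∈ m.coeff.support, ((ht w).natAbs + 1) :=
      Finset.single_le_sum (f := fun w => (ht w).natAbs + 1) (fun _ _ => Nat.zero_le _)
        (Finsupp.mem_support_iff.2 hw)
    omega
  have h := mem_span N m hm hN
  rw [Finsupp.mem_span_range_iff_exists_finsupp] at h
  obtain ⟨f, hf⟩ := h
  refine ⟨f.support.card, fun k => ((f.support.equivFin.symm k : f.support) : ℤ × Bool × List ℕ).1,
    fun k => ((f.support.equivFin.symm k : f.support) : ℤ × Bool × List ℕ).2.1,
    fun k => ((f.support.equivFin.symm k : f.support) : ℤ × Bool × List ℕ).2.2,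
    fun k => f (f.support.equivFin.symm k : f.support), ?_⟩
  rw [← hf, Finsupp.sum, ← Finset.sum_coe_sort, ← Equiv.sum_comp f.support.equivFin.symm]
  rfl

end Pool.Agent.V8H61.SP
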