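import Pool.Agent.V8H32.SP.Stmt

/-!
# Heights of weights, leading terms, invariance under the Weyl group
-/

set_option autoImplicit false

namespace Pool.Agent.V8H61.SP

open Finset Pool.Agent.V8H32.SP

variable {n : ℕ}

/-- weights -/
abbrev Wt (n : ℕ) : Type := ℤ × (Fin n → ℤ)

/-- the height of a weight -/
def ht (w : Wt n) : ℤ := ∑ i : Fin n, ((n : ℤ) - (i : ℕ)) * (2 * w.2 i - w.1)

theorem ht_add (a b : Wt n) : ht (a + b) = ht a + ht b := by
  unfold ht
  rw [← Finset.sum_add_distrib]
  refine Finset.sum_congr rfl fun i _ => ?_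
  rw [Prod.snd_add, Prod.fst_add, Pi.add_apply]
  ring

theorem ht_zero : ht (0 : Wt n) = 0 := by
  unfold ht
  simp

theorem ht_sum {α : Type} (s : Finset α) (f : α → Wt n) : ht (∑ x ∈ s, f x) = ∑ x ∈ s, ht (f x) := by
  classical
  induction s using Finset.induction_on with
  | empty => simp [ht_zero]
  | insert x s hx ih => rw [Finset.sum_insert hx, Finset.sum_insert hx, ht_add, ih]

/-! ### low elements and leading terms -/

/-- all the weights have height less than `N` -/
def Low (N : ℤ) (m : Rep n) : Prop := ∀ w, m.coeff w ≠ 0 → ht w < N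

/-- all the weights have height at most `N` -/
def Le (N : ℤ) (m : Rep n) : Prop := ∀ w, m.coeff w ≠ 0 → ht w ≤ N

theorem Low.le {N : ℤ} {m : Rep n} (h : Low N m) : Le N m := fun w hw => (h w hw).le

theorem Low.zero (N : ℤ) : Low N (0 : Rep n) := fun w hw => absurd rfl hw

theorem Low.add {N : ℤ} {m m' : Rep n} (h : Low N m) (h' : Low N m') : Low N (m + m') := by
  intro w hw
  rw [AddMonoidAlgebra.coeff_add, Finsupp.add_apply] at hw
  by_cases h0 : m.coeff w = 0
  · rw [h0, zero_add] at hw
    exact h' w hw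
  · exact h w h0

theorem Le.add {N : ℤ} {m m' : Rep n} (h : Le N m) (h' : Le N m') : Le N (m + m') := by
  intro w hw
  rw [AddMonoidAlgebra.coeff_add, Finsupp.add_apply] at hw
  by_cases h0 : m.coeff w = 0
  · rw [h0, zero_add] at hw
    exact h' w hw
  · exact h w h0

theorem Low.smul {N : ℤ} {m : Rep n} (h : Low N m) (a : ℤ) : Low N (a • m) := by
  intro w hw
  refine h w fun h0 => hw ?_
  rw [AddMonoidAlgebra.coeff_smul_apply, h0, smul_zero]

theorem Low.sum {α : Type} {N : ℤ} (s : Finset α) (f : α → Rep n) (h : ∀ x ∈ s, Low N (f x)) :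
    Low N (∑ x ∈ s, f x) := by
  classical
  induction s using Finset.induction_on with
  | empty =>
    rw [Finset.sum_empty]
    exact Low.zero N
  | insert x s hx ih =>
    rw [Finset.sum_insert hx]
    exact (h x (Finset.mem_insert_self x s)).add
      (ih fun y hy => h y (Finset.mem_insert_of_mem hy))

theorem mul_supp {m m' : Rep n} {w : Wt n} (h : (m * m').coeff w ≠ 0) :
    ∃ a b : Wt n, m.coeff a ≠ 0 ∧ m'.coeff b ≠ 0 ∧ a + b = w := by
  classical
  have h1 := AddMonoidAlgebra.support_coeff_mul_subset m m' (Finsupp.mem_support_iff.2 h)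
  rw [Finset.mem_add] at h1
  obtain ⟨a, ha, b, hb, hab⟩ := h1
  exact ⟨a, b, Finsupp.mem_support_iff.1 ha, Finsupp.mem_support_iff.1 hb, hab⟩

theorem Low.mul_le {N M : ℤ} {m m' : Rep n} (h : Low N m) (h' : Le M m') : Low (N + M) (m * m') := by
  intro w hw
  obtain ⟨a, b, ha, hb, rfl⟩ := mul_supp hw
  rw [ht_add]
  exact add_lt_add_of_lt_of_le (h a ha) (h' b hb)

theorem Le.mul_low {N M : ℤ} {m m' : Rep n} (h : Le N m) (h' : Low M m') : Low (N + M) (m * m') := by
  intro w hw
  obtain ⟨a, b, ha, hb, rfl⟩ := mul_supp hw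
  rw [ht_add]
  exact add_lt_add_of_le_of_lt (h a ha) (h' b hb)

theorem single_ne {w w' : Wt n} {r : ℤ} (h : (AddMonoidAlgebra.single w r : Rep n).coeff w' ≠ 0) :
    w' = w := by
  classical
  rw [AddMonoidAlgebra.coeff_single, Finsupp.single_apply] at h
  by_contra hne
  exact h (if_neg fun h' => hne h'.symm)

theorem Le.single (w : Wt n) (r : ℤ) : Le (ht w) (AddMonoidAlgebra.single w r : Rep n) := by
  intro w' hw'
  rw [single_ne hw']

theorem Low.single {w : Wt n} {N : ℤ} (h : ht w < N) (r : ℤ) :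
    Low N (AddMonoidAlgebra.single w r : Rep n) := by
  intro w' hw'
  rw [single_ne hw']
  exact h

/-- `m` has the leading weight `w`, with multiplicity one -/
def Top (m : Rep n) (w : Wt n) : Prop := Low (ht w) (m - AddMonoidAlgebra.single w 1)

theorem Top.le {m : Rep n} {w : Wt n} (h : Top m w) : Le (ht w) m := by
  have h1 : m = (m - AddMonoidAlgebra.single w 1) + AddMonoidAlgebra.single w 1 := by abel
  rw [h1]
  exact (Low.le h).add (Le.single w 1)

theorem Top.mul {m m' : Rep n} {w w' : Wt n} (h : Top m w) (h' : Top m' w') :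
    Top (m * m') (w + w') := by
  unfold Top
  have e : m * m' - AddMonoidAlgebra.single (w + w') 1 =
      AddMonoidAlgebra.single w 1 * (m' - AddMonoidAlgebra.single w' 1) +
        (m - AddMonoidAlgebra.single w 1) * m' := by
    rw [mul_sub, sub_mul, AddMonoidAlgebra.single_mul_single, mul_one]
    abel
  rw [e, ht_add]
  exact ((Le.single w 1).mul_low h').add (Low.mul_le h h'.le)

theorem Top.one : Top (1 : Rep n) 0 := by
  unfold Top
  have e : (1 : Rep n) - AddMonoidAlgebra.single 0 1 = 0 := by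
    rw [AddMonoidAlgebra.one_def, sub_self]
  rw [e]
  exact Low.zero _

/-! ### the Weyl group -/

/-- permutations -/
def wP (σ : Equiv.Perm (Fin n)) : Wt n ≃+ Wt n where
  toFun w := (w.1, w.2 ∘ σ)
  invFun w := (w.1, w.2 ∘ σ.symm)
  left_inv w := by
    refine Prod.ext rfl (funext fun i => ?_)
    simp
  right_inv w := by
    refine Prod.ext rfl (funext fun i => ?_)
    simp
  map_add' w w' := rfl

/-- sign changes -/
def wI (i : Fin n) : Wt n ≃+ Wt n where
  toFun w := (w.1, Function.update w.2 i (w.1 - w.2 i))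
  invFun w := (w.1, Function.update w.2 i (w.1 - w.2 i))
  left_inv w := by
    refine Prod.ext rfl (funext fun j => ?_)
    by_cases h : j = i
    · subst h
      simp
    · simp [h]
  right_inv w := by
    refine Prod.ext rfl (funext fun j => ?_)
    by_cases h : j = i
    · subst h
      simp
    · simp [h]
  map_add' w w' := by
    refine Prod.ext rfl (funext fun j => ?_)
    by_cases h : j = i
    · subst h
      simp
      ring
    · simp [h]

theorem isW_iff (m : Rep n) : IsW m ↔
    (∀ σ, AddMonoidAlgebra.domCongr ℤ ℤ (wP σ) m = m) ∧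
      ∀ i, AddMonoidAlgebra.domCongr ℤ ℤ (wI i) m = m := by
  constructor
  · rintro ⟨h1, h2⟩
    refine ⟨fun σ => ?_, fun i => ?_⟩
    · ext w
      rw [AddMonoidAlgebra.coeff_domCongr]
      exact h1 σ.symm w
    · ext w
      rw [AddMonoidAlgebra.coeff_domCongr]
      exact h2 i w
  · rintro ⟨h1, h2⟩
    refine ⟨fun σ w => ?_, fun i w => ?_⟩
    · have h3 := congrArg (fun m : Rep n => m.coeff w) (h1 σ.symm)
      simp only [AddMonoidAlgebra.coeff_domCongr] at h3
      exact h3
    · have h3 := congrArg (fun m : Rep n => m.coeff w) (h2 i)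
      simp only [AddMonoidAlgebra.coeff_domCongr] at h3
      exact h3

theorem isW_one : IsW (1 : Rep n) := by
  rw [isW_iff]
  exact ⟨fun σ => map_one _, fun i => map_one _⟩

theorem isW_mul {m m' : Rep n} (h : IsW m) (h' : IsW m') : IsW (m * m') := by
  rw [isW_iff] at *
  exact ⟨fun σ => by rw [map_mul, h.1, h'.1], fun i => by rw [map_mul, h.2, h'.2]⟩

theorem isW_sub {m m' : Rep n} (h : IsW m) (h' : IsW m') : IsW (m - m') := by
  rw [isW_iff] at *
  exact ⟨fun σ => by rw [map_sub, h.1, h'.1], fun i => by rw [map_sub, h.2, h'.2]⟩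

theorem isW_smul {m : Rep n} (h : IsW m) (a : ℤ) : IsW (a • m) := by
  rw [isW_iff] at *
  exact ⟨fun σ => by rw [map_zsmul, h.1], fun i => by rw [map_zsmul, h.2]⟩

theorem isW_sum {α : Type} (s : Finset α) (f : α → Rep n) (h : ∀ x ∈ s, IsW (f x)) :
    IsW (∑ x ∈ s, f x) := by
  rw [isW_iff]
  refine ⟨fun σ => ?_, fun i => ?_⟩
  · rw [map_sum]
    exact Finset.sum_congr rfl fun x hx => ((isW_iff _).1 (h x hx)).1 σ
  · rw [map_sum]
    exact Finset.sum_congr rfl fun x hx => ((isW_iff _).1 (h x hx)).2 i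

theorem isW_list (l : List (Rep n)) (h : ∀ m ∈ l, IsW m) : IsW l.prod := by
  induction l with
  | nil => exact isW_one
  | cons m l ih =>
    rw [List.prod_cons]
    exact isW_mul (h m List.mem_cons_self) (ih fun m' hm' => h m' (List.mem_cons_of_mem _ hm'))

/-! ### weights of maximal height are dominant -/

/-- dominant weights -/
def Dom (w : Wt n) : Prop := (∀ i, w.1 ≤ 2 * w.2 i) ∧ ∀ i j, i < j → w.2 j ≤ w.2 i

theorem dom_of_max {N : ℤ} {m : Rep n} (h : IsW m) (hN : Le N m) {w : Wt n} (hw : m.coeff w ≠ 0)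
    (hwN : ht w = N) : Dom w := by
  constructor
  · intro i
    by_contra hcon
    rw [not_le] at hcon
    have h1 := hN _ (by rw [h.2 i w]; exact hw : m.coeff (w.1, Function.update w.2 i (w.1 - w.2 i)) ≠ 0)
    have h2 : ht (w.1, Function.update w.2 i (w.1 - w.2 i)) - ht w =
        ((n : ℤ) - (i : ℕ)) * (2 * (w.1 - 2 * w.2 i)) := by
      unfold ht
      rw [← Finset.sum_sub_distrib, Finset.sum_eq_single i]
      · simp only [Function.update_self]
        ring
      · intro j _ hj
        simp only [Function.update_of_ne hj]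
        ring
      · intro h
        exact absurd (Finset.mem_univ _) h
    have h3 : (0 : ℤ) < (n : ℤ) - (i : ℕ) := by have := i.2; omega
    have h4 : 0 < ((n : ℤ) - (i : ℕ)) * (2 * (w.1 - 2 * w.2 i)) := mul_pos h3 (by linarith)
    linarith
  · intro i j hij
    by_contra hcon
    rw [not_le] at hcon
    have h1 := hN _ (by rw [h.1 (Equiv.swap i j) w]; exact hw :
      m.coeff (w.1, w.2 ∘ (Equiv.swap i j)) ≠ 0)
    have h2 : ht (w.1, w.2 ∘ (Equiv.swap i j)) - ht w =
        (((n : ℤ) - (i : ℕ)) - ((n : ℤ) - (j : ℕ))) * (2 * (w.2 j - w.2 i)) := by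
      unfold ht
      rw [← Finset.sum_sub_distrib, Fintype.sum_eq_add i j hij.ne]
      · simp only [Function.comp_apply, Equiv.swap_apply_left, Equiv.swap_apply_right]
        ring
      · rintro k ⟨h1, h2⟩
        simp only [Function.comp_apply, Equiv.swap_apply_of_ne_of_ne h1 h2]
        ring
    have h3 : (0 : ℤ) < ((n : ℤ) - (i : ℕ)) - ((n : ℤ) - (j : ℕ)) := by
      have : (i : ℕ) < j := hij
      omega
    have h4 : 0 < (((n : ℤ) - (i : ℕ)) - ((n : ℤ) - (j : ℕ))) * (2 * (w.2 j - w.2 i)) :=
      mul_pos h3 (by linarith)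
    linarith

theorem Dom.ht_nonneg {w : Wt n} (h : Dom w) : 0 ≤ ht w := by
  unfold ht
  refine Finset.sum_nonneg fun i _ => mul_nonneg ?_ ?_
  · have := i.2
    omega
  · have := h.1 i
    linarith

theorem zero_of_low {m : Rep n} (h : IsW m) (hm : Low 0 m) : m = 0 := by
  by_contra hne
  have h1 : m.coeff.support.Nonempty := by
    rw [Finsupp.support_nonempty_iff]
    intro h0
    exact hne (AddMonoidAlgebra.coeff_eq_zero.1 h0)
  obtain ⟨w, hw, hmax⟩ := Finset.exists_max_image m.coeff.support ht h1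
  have h2 : Le (ht w) m := fun w' hw' => hmax w' (Finsupp.mem_support_iff.2 hw')
  have h3 := dom_of_max h h2 (Finsupp.mem_support_iff.1 hw) rfl
  have h4 := hm w (Finsupp.mem_support_iff.1 hw)
  have h5 := h3.ht_nonneg
  linarith

end Pool.Agent.V8H61.SP
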